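import Pool.Agent.H245Z.SqPow

set_option autoImplicit false

namespace Pool.Agent.Results.MP_fcd74d_nt.AllSquarefree

/-- There are infinitely many integers `n ≥ 3` such that `n - 2 ^ k` is squarefree for every
`k ≥ 0` with `2 ^ k < n` (in particular for every such `k ≥ 1`). -/
theorem result :
    {n : ℕ | 3 ≤ n ∧ ∀ k : ℕ, 2 ^ k < n → Squarefree (n - 2 ^ k)}.Infinite := by
  apply Set.infinite_of_forall_exists_gt
  intro a
  obtain ⟨n, hn, h⟩ := Pool.Agent.H245Z.SqPow.exists_good (a + 256) (by omega)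
  exact ⟨n, ⟨by omega, h⟩, by omega⟩

end Pool.Agent.Results.MP_fcd74d_nt.AllSquarefree
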